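import Pool.Agent.Helper62.GR.Goals
import Mathlib.GroupTheory.Schreier
import Mathlib.GroupTheory.FreeGroup.NielsenSchreier

/-!
# Project GR (MP_08df5f_al), packet RS: subgroups of finite index of finitely presented groups
-/

set_option autoImplicit false

namespace Pool.Agent.Helper80.GR

open Pool.Agent.Helper62.GR Pool.Agent.Helper62.WB

theorem rs : G_RS := by
  classical
  rintro G _ H ⟨k, π, R, hπ, hker⟩ hH
  set H' : Subgroup (FreeGroup (Fin k)) := H.comap π with hH'
  have hfi : H'.FiniteIndex := ⟨by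
    rw [hH', H.index_comap_of_surjective hπ]
    exact hH.index_ne_zero⟩
  have hkH : π.ker ≤ H' := fun x hx ↦ by
    rw [hH', Subgroup.mem_comap, MonoidHom.mem_ker.1 hx]
    exact H.one_mem
  have hfg : Group.FG H' := Subgroup.fg_of_index_ne_zero H'
  obtain ⟨ι, hι, α₀, hα₀⟩ := (Group.fg_iff_exists_freeGroup_hom_surjective_finite (G := H')).1 hfg
  obtain ⟨m, ⟨e⟩⟩ := Finite.exists_equiv_fin ι
  obtain ⟨α, hα⟩ : ∃ α : FreeGroup (Fin m) →* H', Function.Surjective α :=
    ⟨α₀.comp (FreeGroup.freeGroupCongr e).symm.toMonoidHom,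
      hα₀.comp (FreeGroup.freeGroupCongr e).symm.surjective⟩
  -- a section of `α`
  obtain ⟨β, hβ⟩ : ∃ β : H' →* FreeGroup (Fin m), ∀ y, α (β y) = y := by
    choose s hs using hα
    refine ⟨IsFreeGroup.lift fun x ↦ s (IsFreeGroup.of x), fun y ↦ ?_⟩
    have h : α.comp (IsFreeGroup.lift fun x ↦ s (IsFreeGroup.of x)) = MonoidHom.id H' := by
      apply IsFreeGroup.ext_hom
      intro x
      rw [MonoidHom.comp_apply, IsFreeGroup.lift_of, hs]
      rfl
    exact DFunLike.congr_fun h y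
  -- representatives
  let _ : Fintype (FreeGroup (Fin k) ⧸ H') := Fintype.ofFinite _
  let S : Finset (FreeGroup (Fin k)) :=
    (Finset.univ : Finset (FreeGroup (Fin k) ⧸ H')).image fun q ↦ (q.out)⁻¹
  have hS : ∀ g : FreeGroup (Fin k), ∃ h ∈ H', ∃ t ∈ S, g = h * t := by
    intro g
    obtain ⟨h, hh⟩ := QuotientGroup.mk_out_eq_mul H' g⁻¹
    refine ⟨(h : FreeGroup (Fin k)), h.2, _,
      Finset.mem_image.2 ⟨(QuotientGroup.mk g⁻¹ : FreeGroup (Fin k) ⧸ H'), Finset.mem_univ _, rfl⟩,
      ?_⟩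
    rw [hh]
    group
  have hconj : ∀ t r : FreeGroup (Fin k), r ∈ π.ker → t * r * t⁻¹ ∈ H' := fun t r hr ↦
    hkH ((MonoidHom.normal_ker π).conj_mem r hr t)
  have hRk : ∀ r ∈ R, r ∈ π.ker := fun r hr ↦ by
    rw [hker]
    exact Subgroup.subset_normalClosure hr
  -- the relators
  let T₁ : Finset (FreeGroup (Fin m)) := Finset.univ.image fun i : Fin m ↦
    (FreeGroup.of i)⁻¹ * β (α (FreeGroup.of i))
  let T₂ : Finset (FreeGroup (Fin m)) := (S ×ˢ R.attach).image fun tr ↦
    β ⟨tr.1 * tr.2.1 * tr.1⁻¹, hconj tr.1 tr.2.1 (hRk _ tr.2.2)⟩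
  let γ : FreeGroup (Fin m) →* H :=
    (π.comp (H'.subtype.comp α)).codRestrict H fun x ↦ (α x).2
  have hγ : ∀ x, ((γ x : H) : G) = π (α x : FreeGroup (Fin k)) := fun x ↦ rfl
  refine ⟨m, γ, T₁ ∪ T₂, ?_, ?_⟩
  · rintro ⟨h, hh⟩
    obtain ⟨y, rfl⟩ := hπ h
    obtain ⟨x, hx⟩ := hα ⟨y, hh⟩
    refine ⟨x, Subtype.ext ?_⟩
    rw [hγ, hx]
  · apply le_antisymm
    · intro x hx
      set M := Subgroup.normalClosure ((T₁ ∪ T₂ : Finset (FreeGroup (Fin m))) :
        Set (FreeGroup (Fin m))) with hM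
      have hMn : M.Normal := Subgroup.normalClosure_normal
      -- (a)
      have ha : ∀ z : FreeGroup (Fin m), z⁻¹ * β (α z) ∈ M := by
        intro z
        have h : (QuotientGroup.mk' M).comp (β.comp α) = QuotientGroup.mk' M := by
          apply FreeGroup.ext_hom
          intro i
          rw [MonoidHom.comp_apply, MonoidHom.comp_apply]
          symm
          rw [QuotientGroup.mk'_apply, QuotientGroup.mk'_apply, QuotientGroup.eq]
          apply Subgroup.subset_normalClosure
          rw [Finset.mem_coe, Finset.mem_union]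
          exact Or.inl (Finset.mem_image.2 ⟨i, Finset.mem_univ _, rfl⟩)
        have h2 := DFunLike.congr_fun h z
        rw [MonoidHom.comp_apply, MonoidHom.comp_apply, QuotientGroup.mk'_apply,
          QuotientGroup.mk'_apply] at h2
        exact QuotientGroup.eq.1 h2.symm
      -- (b)
      have hb : π.ker ≤ (M.comap β).map H'.subtype := by
        rw [hker, Subgroup.normalClosure, Subgroup.closure_le]
        intro c hc
        rw [Group.mem_conjugatesOfSet_iff] at hc
        obtain ⟨r, hr, hrc⟩ := hc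
        rw [isConj_iff] at hrc
        obtain ⟨g, rfl⟩ := hrc
        obtain ⟨h, hh, t, ht, rfl⟩ := hS g
        have hr' : r ∈ R := hr
        have h1 := hconj t r (hRk r hr')
        have h2 : β ⟨t * r * t⁻¹, h1⟩ ∈ M := by
          apply Subgroup.subset_normalClosure
          rw [Finset.mem_coe, Finset.mem_union]
          exact Or.inr (Finset.mem_image.2 ⟨(t, ⟨r, hr'⟩),
            Finset.mem_product.2 ⟨ht, Finset.mem_attach _ _⟩, rfl⟩)
        refine Subgroup.mem_map.2 ⟨⟨h, hh⟩ * ⟨t * r * t⁻¹, h1⟩ * ⟨h, hh⟩⁻¹, ?_, ?_⟩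
        · rw [Subgroup.mem_comap, map_mul, map_mul, map_inv]
          exact hMn.conj_mem _ h2 _
        · change h * (t * r * t⁻¹) * h⁻¹ = h * t * r * (h * t)⁻¹
          group
      have hx1 : (α x : FreeGroup (Fin k)) ∈ π.ker := by
        rw [MonoidHom.mem_ker, ← hγ, MonoidHom.mem_ker.1 hx]
        rfl
      obtain ⟨y, hy, hyx⟩ := Subgroup.mem_map.1 (hb hx1)
      have hyx' : y = α x := Subtype.ext hyx
      rw [hyx', Subgroup.mem_comap] at hy
      have h3 := M.mul_mem hy (M.inv_mem (ha x))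
      have h4 : β (α x) * (x⁻¹ * β (α x))⁻¹ = x := by group
      rwa [h4] at h3
    · have hn : γ.ker.Normal := MonoidHom.normal_ker γ
      apply Subgroup.normalClosure_le_normal
      intro z hz
      rw [Finset.mem_coe, Finset.mem_union] at hz
      rw [SetLike.mem_coe, MonoidHom.mem_ker]
      apply Subtype.ext
      rw [hγ]
      rcases hz with hz | hz
      · obtain ⟨i, -, rfl⟩ := Finset.mem_image.1 hz
        rw [map_mul, map_inv, hβ, inv_mul_cancel]
        exact map_one π
      · obtain ⟨⟨t, r⟩, -, rfl⟩ := Finset.mem_image.1 hz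
        rw [hβ]
        exact MonoidHom.mem_ker.1 ((MonoidHom.normal_ker π).conj_mem r.1 (hRk _ r.2) t)

end Pool.Agent.Helper80.GR
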