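import Pool.Agent.Helper62.GR.Goals

/-!
# Project GR (MP_08df5f_al), packet SG: singular points and sections of normalising automorphisms
-/

set_option autoImplicit false

namespace Pool.Agent.Helper80.GR

open Equiv Pool.Agent.Helper62.GR

/-- A generator `gs s` is trivial near every point except `xi`. -/
theorem gs_sing (n : ℕ) : ∀ (s : ℕ) (x : X), gs s x = x →
    (∀ m, ∃ y, Agr m x y ∧ gs s y ≠ y) → x n = true := by
  have base : ∀ (s : ℕ) (x : X), gs s x = x → (∀ m, ∃ y, Agr m x y ∧ gs s y ≠ y) →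
      x 0 = true := by
    intro s x hx hy
    by_contra hcon
    have h0 : x 0 = false := by simpa using hcon
    have hx' : x = cn false (tl x) := by rw [← h0, cn_tl]
    rw [hx', gs_cn_false] at hx
    by_cases hs : s % 3 = 2
    · obtain ⟨y, hy1, hy2⟩ := hy 1
      have h1 : y 0 = false := by rw [← hy1 0 (by omega), h0]
      have hy' : y = cn false (tl y) := by rw [← h1, cn_tl]
      apply hy2
      rw [hy', gs_cn_false, if_pos hs]
    · rw [if_neg hs] at hx
      have h1 := (cn_inj hx).2
      have h2 := congrFun h1 0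
      rw [ga_apply_zero] at h2
      cases h3 : tl x 0 <;> rw [h3] at h2 <;> simp at h2
  induction n with
  | zero => exact base
  | succ n ih =>
    intro s x hx hy
    have h0 := base s x hx hy
    have hx' : x = cn true (tl x) := by rw [← h0, cn_tl]
    refine ih (s + 1) (tl x) ?_ ?_
    · rw [hx', gs_cn_true] at hx
      exact (cn_inj hx).2
    · intro m
      obtain ⟨y, hy1, hy2⟩ := hy (m + 1)
      have hy1' := Agr_succ.1 hy1
      have h1 : y 0 = true := by rw [← hy1'.1, h0]
      have hy' : y = cn true (tl y) := by rw [← h1, cn_tl]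
      refine ⟨tl y, hy1'.2, fun h ↦ hy2 ?_⟩
      rw [hy', gs_cn_true, h]

theorem lt_sing (l : Lt) (x : X) (hx : lt l x = x)
    (hy : ∀ m, ∃ y, Agr m x y ∧ lt l y ≠ y) : ∃ N, ∀ n, N ≤ n → x n = true := by
  cases l with
  | a =>
    exfalso
    have h2 := congrFun hx 0
    change ga x 0 = x 0 at h2
    rw [ga_apply_zero] at h2
    cases h3 : x 0 <;> rw [h3] at h2 <;> simp at h2
  | b => exact ⟨0, fun n _ ↦ gs_sing n 0 x hx hy⟩
  | c => exact ⟨0, fun n _ ↦ gs_sing n 1 x hx hy⟩
  | d => exact ⟨0, fun n _ ↦ gs_sing n 2 x hx hy⟩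

theorem sg (_h1 : G_SE) (h2 : G_WO) : G_SG := by
  obtain ⟨-, w2, w3, w4, w5, -, w7, -, w9, -, -⟩ := h2
  have main : ∀ (l : ℕ) (w : List Lt), alt w = true → w.length ≤ l → ∀ x : X, ev w x = x →
      (∀ n, ∃ y, Agr n x y ∧ ev w y ≠ y) → ∃ N, ∀ n, N ≤ n → x n = true := by
    intro l
    induction l with
    | zero =>
      intro w hw hl x hx hy
      have : w = [] := List.length_eq_zero_iff.1 (by omega)
      subst this
      obtain ⟨y, -, hy⟩ := hy 0
      exact absurd rfl hy
    | succ l ih =>
      intro w hw hl x hx hy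
      by_cases h2 : w.length ≤ 1
      · match w, h2 with
        | [], _ =>
          obtain ⟨y, -, hy⟩ := hy 0
          exact absurd rfl hy
        | [z], _ =>
          have e : ev [z] = lt z := mul_one _
          rw [e] at hx hy
          exact lt_sing z x hx hy
      · have hx' : x = cn (x 0) (tl x) := (cn_tl x).symm
        have hx2 := hx
        rw [hx', w2] at hx2
        obtain ⟨e1, e2⟩ := cn_inj hx2
        have hlen : (red (sec (x 0) w)).length ≤ l := by
          have a1 := w5 (sec (x 0) w)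
          have a2 := w7 w hw (x 0)
          omega
        obtain ⟨N, hN⟩ := ih (red (sec (x 0) w)) (w4 _) hlen (tl x) (by rw [w3]; exact e2) (by
          intro m
          obtain ⟨y, hy1, hy2⟩ := hy (m + 1)
          have hy1' := Agr_succ.1 hy1
          refine ⟨tl y, hy1'.2, fun h ↦ hy2 ?_⟩
          rw [w3] at h
          have hy' : y = cn (x 0) (tl y) := by rw [hy1'.1, cn_tl]
          rw [hy', w2, e1, h])
        refine ⟨N + 1, fun n hn ↦ ?_⟩
        obtain ⟨m, rfl⟩ := Nat.exists_eq_add_of_le hn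
        have := hN (N + m) (by omega)
        rw [tl_apply] at this
        have e : N + 1 + m = N + m + 1 := by ring
        rw [e]
        exact this
  intro g hg x hx hy
  obtain ⟨w, hw, rfl⟩ := w9 g hg
  exact main w.length w hw le_rfl x hx hy

theorem near_xi (n : ℕ) : ∀ s, ∃ y, Agr n xi y ∧ gs s y ≠ y := by
  induction n with
  | zero =>
    intro s
    have h := gs_ne_one s
    by_contra hcon
    push Not at hcon
    apply h
    ext1 x
    exact hcon x (Agr_zero _ _)
  | succ n ih =>
    intro s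
    obtain ⟨y, hy1, hy2⟩ := ih (s + 1)
    refine ⟨cn true y, ?_, fun h ↦ hy2 ?_⟩
    · rw [← cn_xi, Agr_cn]
      exact ⟨rfl, hy1⟩
    · rw [gs_cn_true] at h
      exact (cn_inj h).2

/-- An isometry which fixes `xi` fixes the first letter. -/
theorem first_letter (f : X → X) (hf : ∀ n x y, Agr n (f x) (f y) ↔ Agr n x y) (hxi : f xi = xi)
    (x : X) : f x 0 = x 0 := by
  have h := hf 1 x xi
  rw [hxi] at h
  have h1 : ∀ z : X, Agr 1 z xi ↔ z 0 = true := by
    intro z
    constructor
    · intro h
      exact h 0 (by omega)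
    · intro h i hi
      have : i = 0 := by omega
      rw [this]
      exact h
  rw [h1, h1] at h
  cases h2 : x 0
  · rw [h2] at h
    simpa using h
  · rw [h2] at h
    simpa using h

theorem ns (h1 : G_SE) (h2 : G_LT) : G_NS := by
  obtain ⟨s1, -, s3, s4, s5⟩ := h1
  refine ⟨?_, ?_, ?_, ?_, ?_, ?_⟩
  · rintro g0 g1 ⟨hA, hN⟩
    refine ⟨⟨fun n x y ↦ ?_, fun g hg ↦ ?_⟩, ⟨fun n x y ↦ ?_, fun g hg ↦ ?_⟩⟩
    · have := hA (n + 1) (cn false x) (cn false y)
      rw [pr_false, pr_false, Agr_cn, Agr_cn] at this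
      simpa using this
    · obtain ⟨h, -, hh⟩ := s4 g hg
      have := hN _ hh
      rw [pr_inv, pr_mul, pr_mul] at this
      exact (s5 _ _ this).1
    · have := hA (n + 1) (cn true x) (cn true y)
      rw [pr_true, pr_true, Agr_cn, Agr_cn] at this
      simpa using this
    · obtain ⟨h, -, hh⟩ := s3 g hg
      have := hN _ hh
      rw [pr_inv, pr_mul, pr_mul] at this
      exact (s5 _ _ this).2
  · rintro f ⟨hA, -⟩ hxi
    have f1 : ∀ x, f x 0 = x 0 := first_letter f hA hxi
    have f2 : ∀ x, f.symm x 0 = x 0 := first_letter f.symm (fun n x y ↦ by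
      rw [← hA, Equiv.apply_symm_apply, Equiv.apply_symm_apply])
      (by rw [Equiv.symm_apply_eq, hxi])
    let gi : Bool → Perm X := fun i ↦
      { toFun := fun x ↦ tl (f (cn i x))
        invFun := fun x ↦ tl (f.symm (cn i x))
        left_inv := fun x ↦ by
          have e : cn i (tl (f (cn i x))) = f (cn i x) := by
            have h := cn_tl (f (cn i x))
            rwa [f1, cn_zero] at h
          simp only [e, Equiv.symm_apply_apply, tl_cn]
        right_inv := fun x ↦ by
          have e : cn i (tl (f.symm (cn i x))) = f.symm (cn i x) := by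
            have h := cn_tl (f.symm (cn i x))
            rwa [f2, cn_zero] at h
          simp only [e, Equiv.apply_symm_apply, tl_cn] }
    have e : ∀ i x, cn i (tl (f (cn i x))) = f (cn i x) := by
      intro i x
      have h := cn_tl (f (cn i x))
      rwa [f1, cn_zero] at h
    refine ⟨gi false, gi true, ?_, ?_⟩
    · apply perm_ext
      rintro (_ | _) x
      · exact (e false x).symm
      · exact (e true x).symm
    · change tl (f (cn true xi)) = xi
      rw [cn_xi, hxi, tl_xi]
  · rintro g0 g1 ⟨-, hN⟩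
    have h := GG.mul_mem ga_mem (hN _ ga_mem)
    have e : ga * (pr g0 g1 * ga * (pr g0 g1)⁻¹) = pr (g1 * g0⁻¹) (g0 * g1⁻¹) := by
      rw [← mul_assoc, ← mul_assoc, ga_mul_pr, mul_assoc (pr g1 g0), ga_mul_ga, mul_one, pr_inv,
        pr_mul]
    rw [e] at h
    exact (s5 _ _ h).2
  · rintro f g ⟨hf, hf'⟩ ⟨hg, hg'⟩
    refine ⟨fun n x y ↦ ?_, fun h hh ↦ ?_⟩
    · rw [Perm.mul_apply, Perm.mul_apply, hf, hg]
    · have := hf' _ (hg' h hh)
      have e : f * g * h * (f * g)⁻¹ = f * (g * h * g⁻¹) * f⁻¹ := by group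
      rw [e]
      exact this
  · intro g hg
    exact ⟨s1 g hg, fun h hh ↦ GG.mul_mem (GG.mul_mem hg hh) (GG.inv_mem hg)⟩
  · rintro hSG f ⟨hA, hN⟩
    have h3 := hSG _ (hN _ (gs_mem 0)) (f xi) (by
      have e : f⁻¹ (f xi) = xi := f.symm_apply_apply xi
      rw [Perm.mul_apply, Perm.mul_apply, e, gs_xi]) (by
      intro n
      obtain ⟨y, hy1, hy2⟩ := near_xi n 0
      refine ⟨f y, (hA n _ _).2 hy1, fun h ↦ hy2 ?_⟩
      have e : f⁻¹ (f y) = y := f.symm_apply_apply y
      rw [Perm.mul_apply, Perm.mul_apply, e] at h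
      exact f.injective h)
    exact h2.2 (f xi) h3

end Pool.Agent.Helper80.GR
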